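import Pool.Agent.Y856.Sq.Stm

/-!
The dispersion step: finite part.
-/

namespace Pool.Agent.Y257.SQ

open Finset
open Pool.Agent.H442R2.EHI
open Pool.Agent.Y856.Sq

/-- parametrisation of a progression -/
lemma par {M : Type*} [AddCommMonoid M] (k : ℕ) (hk : 1 ≤ k) (a : ℤ) (φ : ℤ → M)
    (R S : Finset ℤ) (h1 : ∀ d, φ d ≠ 0 → d ∈ S) (h2 : ∀ d, φ d ≠ 0 → a + d * k ∈ R) :
    ∑ m ∈ R.filter (fun m => (k : ℤ) ∣ m - a), φ ((m - a) / k) = ∑ d ∈ S, φ d := by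
  have hk0 : (k : ℤ) ≠ 0 := by
    have : (1 : ℤ) ≤ k := by exact_mod_cast hk
    omega
  refine sum_bij_ne_zero (fun m _ _ => (m - a) / k) ?_ ?_ ?_ ?_
  · intro m _ hm2
    exact h1 _ hm2
  · intro m hm _ m' hm' _ h
    rw [mem_filter] at hm hm'
    obtain ⟨t, ht⟩ := hm.2
    obtain ⟨t', ht'⟩ := hm'.2
    rw [ht, ht', Int.mul_ediv_cancel_left _ hk0, Int.mul_ediv_cancel_left _ hk0] at h
    rw [h] at ht
    omega
  · intro d _ hd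
    have e1 : (a + d * k - a) / (k : ℤ) = d := by
      rw [show a + d * k - a = k * d by ring, Int.mul_ediv_cancel_left _ hk0]
    refine ⟨a + d * k, ?_, ?_, e1⟩
    · rw [mem_filter]
      exact ⟨h2 d hd, ⟨d, by ring⟩⟩
    · rw [e1]; exact hd
  · intro m _ _
    rfl

/-- from the natural moduli to all integers -/
lemma step1 (f : ℤ → ℂ) (x : ℕ) (hf : ∀ n : ℤ, f n ≠ 0 → 1 ≤ n ∧ n ≤ x) (a : ℤ)
    (ha1 : 1 ≤ a) (ha2 : a ≤ x) (KK : Finset ℕ) (hK : ∀ k ∈ KK, 1 ≤ k) (D : ℕ) (σ : ℤ)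
    (hσ : σ = 1 ∨ σ = -1) :
    ∑ d ∈ Ioc D (2 * D), ‖∑ k ∈ KK, f (a + σ * d * k)‖ ^ 2 ≤
      ∑ d ∈ Icc (-(x : ℤ)) x, ‖∑ k ∈ KK, f (a + d * k)‖ ^ 2 := by
  classical
  set G : ℤ → ℝ := fun d => ‖∑ k ∈ KK, f (a + d * k)‖ ^ 2 with hG
  have hG0 : ∀ d, 0 ≤ G d := fun d => by rw [hG]; positivity
  have hG1 : ∀ d, G d ≠ 0 → d ∈ Icc (-(x : ℤ)) x := by
    intro d hd
    by_contra hcon
    apply hd
    rw [hG]
    have : ∑ k ∈ KK, f (a + d * k) = 0 := by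
      apply sum_eq_zero
      intro k hk
      by_contra hne
      have h := hf _ hne
      have hk1 : (1 : ℤ) ≤ k := by exact_mod_cast hK k hk
      apply hcon
      rw [mem_Icc]
      constructor
      · by_contra hlt
        push Not at hlt
        nlinarith
      · by_contra hlt
        push Not at hlt
        nlinarith
    simp only [this]
    simp
  have e1 : ∑ d ∈ Ioc D (2 * D), ‖∑ k ∈ KK, f (a + σ * d * k)‖ ^ 2 =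
      ∑ d ∈ (Ioc D (2 * D)).filter (fun d : ℕ => σ * d ∈ Icc (-(x : ℤ)) x), G (σ * d) := by
    symm
    apply sum_filter_of_ne
    intro d _ hd
    exact hG1 _ hd
  rw [e1]
  have hinj : Set.InjOn (fun d : ℕ => σ * (d : ℤ))
      (((Ioc D (2 * D)).filter (fun d : ℕ => σ * (d : ℤ) ∈ Icc (-(x : ℤ)) x) : Finset ℕ) : Set ℕ) := by
    intro d _ d' _ h
    simp only at h
    rcases hσ with rfl | rfl
    · omega
    · omega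
  rw [← sum_image (f := G) hinj]
  refine sum_le_sum_of_subset_of_nonneg ?_ (fun d _ _ => hG0 d)
  intro d hd
  rw [mem_image] at hd
  obtain ⟨d', hd', rfl⟩ := hd
  rw [mem_filter] at hd'
  exact hd'.2

/-- expansion of the square -/
lemma step2 {ι κ : Type*} (I : Finset ι) (S : Finset κ) (KK : Finset ℕ) (F : ι → κ → ℕ → ℂ) :
    ∑ i ∈ I, ∑ d ∈ S, ‖∑ k ∈ KK, F i d k‖ ^ 2 ≤
      ∑ k1 ∈ KK, ∑ k2 ∈ KK, ‖∑ i ∈ I, ∑ d ∈ S, F i d k1 * (starRingEnd ℂ) (F i d k2)‖ := by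
  have e1 : ((∑ i ∈ I, ∑ d ∈ S, ‖∑ k ∈ KK, F i d k‖ ^ 2 : ℝ) : ℂ) =
      ∑ k1 ∈ KK, ∑ k2 ∈ KK, ∑ i ∈ I, ∑ d ∈ S, F i d k1 * (starRingEnd ℂ) (F i d k2) := by
    push_cast
    have e2 : ∀ i d, ((‖∑ k ∈ KK, F i d k‖ : ℂ) ^ 2) =
        ∑ k1 ∈ KK, ∑ k2 ∈ KK, F i d k1 * (starRingEnd ℂ) (F i d k2) := by
      intro i d
      have : ((‖∑ k ∈ KK, F i d k‖ : ℂ) ^ 2) =
          (∑ k ∈ KK, F i d k) * (starRingEnd ℂ) (∑ k ∈ KK, F i d k) := by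
        rw [Complex.mul_conj, Complex.normSq_eq_norm_sq]; push_cast; rfl
      rw [this, map_sum, sum_mul_sum]
    simp only [e2]
    have e3 : ∀ i ∈ I, ∑ d ∈ S, ∑ k1 ∈ KK, ∑ k2 ∈ KK, F i d k1 * (starRingEnd ℂ) (F i d k2) =
        ∑ k1 ∈ KK, ∑ k2 ∈ KK, ∑ d ∈ S, F i d k1 * (starRingEnd ℂ) (F i d k2) := by
      intro i _
      rw [sum_comm]
      refine sum_congr rfl fun k1 _ => ?_
      rw [sum_comm]
    rw [sum_congr rfl e3, sum_comm]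
    refine sum_congr rfl fun k1 _ => ?_
    rw [sum_comm]
  have h0 : 0 ≤ ∑ i ∈ I, ∑ d ∈ S, ‖∑ k ∈ KK, F i d k‖ ^ 2 :=
    sum_nonneg fun _ _ => sum_nonneg fun _ _ => by positivity
  calc ∑ i ∈ I, ∑ d ∈ S, ‖∑ k ∈ KK, F i d k‖ ^ 2
      = ‖((∑ i ∈ I, ∑ d ∈ S, ‖∑ k ∈ KK, F i d k‖ ^ 2 : ℝ) : ℂ)‖ := by
        rw [Complex.norm_real, Real.norm_of_nonneg h0]
    _ = ‖∑ k1 ∈ KK, ∑ k2 ∈ KK, ∑ i ∈ I, ∑ d ∈ S, F i d k1 * (starRingEnd ℂ) (F i d k2)‖ := by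
        rw [e1]
    _ ≤ _ := by
        refine (norm_sum_le _ _).trans ?_
        exact sum_le_sum fun k1 _ => norm_sum_le _ _

/-- the square of a sum, diagonal and lower triangle -/
lemma sig {κ : Type*} (I : Finset ℕ) (S : Finset κ) (g : ℕ → κ → ℂ) :
    ∑ m ∈ S, ‖∑ i ∈ I, g i m‖ ^ 2 ≤ ∑ i ∈ I, ∑ m ∈ S, ‖g i m‖ ^ 2 +
      2 * ‖∑ i ∈ I, ∑ j ∈ I.filter (fun j => j < i),
        ∑ m ∈ S, (starRingEnd ℂ) (g i m) * g j m‖ := by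
  set C : ℕ → ℕ → ℂ := fun i j => ∑ m ∈ S, (starRingEnd ℂ) (g i m) * g j m with hC
  have hconj : ∀ i j, C j i = (starRingEnd ℂ) (C i j) := by
    intro i j
    rw [hC]
    simp only [map_sum, map_mul, Complex.conj_conj]
    exact sum_congr rfl fun m _ => mul_comm _ _
  have e1 : ((∑ m ∈ S, ‖∑ i ∈ I, g i m‖ ^ 2 : ℝ) : ℂ) = ∑ i ∈ I, ∑ j ∈ I, C i j := by
    push_cast
    have e2 : ∀ m ∈ S, ((‖∑ i ∈ I, g i m‖ : ℂ) ^ 2) =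
        ∑ i ∈ I, ∑ j ∈ I, (starRingEnd ℂ) (g i m) * g j m := by
      intro m _
      have : ((‖∑ i ∈ I, g i m‖ : ℂ) ^ 2) =
          (starRingEnd ℂ) (∑ i ∈ I, g i m) * (∑ i ∈ I, g i m) := by
        rw [mul_comm, Complex.mul_conj, Complex.normSq_eq_norm_sq]; push_cast; rfl
      rw [this, map_sum, sum_mul_sum]
    rw [sum_congr rfl e2, sum_comm]
    refine sum_congr rfl fun i _ => ?_
    rw [sum_comm]
  have e3 : ∑ i ∈ I, ∑ j ∈ I, C i j = ∑ i ∈ I, C i i +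
      (∑ i ∈ I, ∑ j ∈ I.filter (fun j => j < i), C i j +
        (starRingEnd ℂ) (∑ i ∈ I, ∑ j ∈ I.filter (fun j => j < i), C i j)) := by
    have e4 : ∀ i ∈ I, ∑ j ∈ I, C i j = C i i + (∑ j ∈ I.filter (fun j => j < i), C i j +
        ∑ j ∈ I.filter (fun j => i < j), C i j) := by
      intro i hi
      rw [← add_sum_erase I (fun j => C i j) hi]
      congr 1
      rw [← sum_filter_add_sum_filter_not (I.erase i) (fun j => j < i)]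
      congr 1
      · refine sum_congr ?_ fun _ _ => rfl
        ext j
        simp only [mem_filter, mem_erase]
        constructor
        · rintro ⟨⟨_, h1⟩, h2⟩; exact ⟨h1, h2⟩
        · rintro ⟨h1, h2⟩; exact ⟨⟨by omega, h1⟩, h2⟩
      · refine sum_congr ?_ fun _ _ => rfl
        ext j
        simp only [mem_filter, mem_erase]
        constructor
        · rintro ⟨⟨h0, h1⟩, h2⟩; exact ⟨h1, by omega⟩
        · rintro ⟨h1, h2⟩; exact ⟨⟨by omega, h1⟩, by omega⟩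
    rw [sum_congr rfl e4, sum_add_distrib, sum_add_distrib]
    congr 2
    rw [map_sum]
    simp only [map_sum]
    simp only [sum_filter]
    rw [sum_comm]
    refine sum_congr rfl fun j _ => sum_congr rfl fun i _ => ?_
    split_ifs
    · exact hconj j i
    · rfl
  have h0 : 0 ≤ ∑ m ∈ S, ‖∑ i ∈ I, g i m‖ ^ 2 := sum_nonneg fun _ _ => by positivity
  have e5 : ∑ i ∈ I, C i i = ((∑ i ∈ I, ∑ m ∈ S, ‖g i m‖ ^ 2 : ℝ) : ℂ) := by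
    push_cast
    refine sum_congr rfl fun i _ => sum_congr rfl fun m _ => ?_
    rw [mul_comm, Complex.mul_conj, Complex.normSq_eq_norm_sq]; push_cast; rfl
  have h1 : 0 ≤ ∑ i ∈ I, ∑ m ∈ S, ‖g i m‖ ^ 2 :=
    sum_nonneg fun _ _ => sum_nonneg fun _ _ => by positivity
  set W := ∑ i ∈ I, ∑ j ∈ I.filter (fun j => j < i), C i j with hW
  calc ∑ m ∈ S, ‖∑ i ∈ I, g i m‖ ^ 2
      = ‖((∑ m ∈ S, ‖∑ i ∈ I, g i m‖ ^ 2 : ℝ) : ℂ)‖ := by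
        rw [Complex.norm_real, Real.norm_of_nonneg h0]
    _ = ‖((∑ i ∈ I, ∑ m ∈ S, ‖g i m‖ ^ 2 : ℝ) : ℂ) + (W + (starRingEnd ℂ) W)‖ := by
        rw [e1, e3, e5]
    _ ≤ ‖((∑ i ∈ I, ∑ m ∈ S, ‖g i m‖ ^ 2 : ℝ) : ℂ)‖ + (‖W‖ + ‖(starRingEnd ℂ) W‖) :=
        (norm_add_le _ _).trans (add_le_add le_rfl (norm_add_le _ _))
    _ = _ := by
        rw [Complex.norm_real, Real.norm_of_nonneg h1, RCLike.norm_conj]; ring

/-- the function `g` -/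
noncomputable def gi (f : ℤ → ℂ) (c : ℤ) (k1 k2 i : ℕ) (m : ℤ) : ℂ :=
  if (k1 : ℤ) ∣ m - (c + (i : ℤ) ^ 2) then
    f (c + (i : ℤ) ^ 2 + (m - (c + (i : ℤ) ^ 2)) / k1 * k2) else 0

lemma bnd {f : ℤ → ℂ} {x : ℕ} (hf : ∀ n : ℤ, f n ≠ 0 → 1 ≤ n ∧ n ≤ x) {a : ℤ}
    (ha1 : 1 ≤ a) (ha2 : a ≤ x) {k : ℕ} (hk : 1 ≤ k) {d : ℤ} (h : f (a + d * k) ≠ 0) :
    d ∈ Icc (-(x : ℤ)) x := by
  have h := hf _ h
  have hk1 : (1 : ℤ) ≤ k := by exact_mod_cast hk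
  rw [mem_Icc]
  constructor
  · by_contra hlt
    push Not at hlt
    nlinarith
  · by_contra hlt
    push Not at hlt
    nlinarith

lemma bnd2 {x : ℕ} {a : ℤ} (ha1 : 1 ≤ a) (ha2 : a ≤ x) (k : ℕ) {d : ℤ}
    (h : d ∈ Icc (-(x : ℤ)) x) : a + d * k ∈ Icc (-((x + x * k : ℕ) : ℤ)) ((x + x * k : ℕ) : ℤ) := by
  rw [mem_Icc] at h ⊢
  have hk1 : (0 : ℤ) ≤ k := by exact_mod_cast Nat.zero_le k
  push_cast
  constructor
  · nlinarith [mul_nonneg (show (0:ℤ) ≤ d + x by linarith) hk1]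
  · nlinarith [mul_nonneg (show (0:ℤ) ≤ x - d by linarith) hk1]

/-- the diagonal terms -/
lemma diag (f : ℤ → ℂ) (x : ℕ) (hf : ∀ n : ℤ, f n ≠ 0 → 1 ≤ n ∧ n ≤ x) (c : ℤ) (k1 k2 i : ℕ)
    (hk1 : 1 ≤ k1) (hk2 : 1 ≤ k2) (ha1 : 1 ≤ c + (i : ℤ) ^ 2) (ha2 : c + (i : ℤ) ^ 2 ≤ x) :
    ∑ m ∈ Icc (-((x + x * k1 : ℕ) : ℤ)) ((x + x * k1 : ℕ) : ℤ), ‖gi f c k1 k2 i m‖ ^ 2 =
      ∑ n ∈ (Icc (1 : ℤ) x).filter (fun n => (k2 : ℤ) ∣ n - (c + (i : ℤ) ^ 2)), ‖f n‖ ^ 2 := by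
  set a : ℤ := c + (i : ℤ) ^ 2 with ha
  set φ : ℤ → ℝ := fun d => ‖f (a + d * k2)‖ ^ 2 with hφ
  have hφ0 : ∀ d, φ d ≠ 0 → f (a + d * k2) ≠ 0 := by
    intro d hd h
    apply hd
    rw [hφ]
    simp only [h]
    simp
  have e1 : ∑ m ∈ Icc (-((x + x * k1 : ℕ) : ℤ)) ((x + x * k1 : ℕ) : ℤ), ‖gi f c k1 k2 i m‖ ^ 2 =
      ∑ m ∈ (Icc (-((x + x * k1 : ℕ) : ℤ)) ((x + x * k1 : ℕ) : ℤ)).filter
        (fun m => (k1 : ℤ) ∣ m - a), φ ((m - a) / k1) := by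
    rw [sum_filter]
    refine sum_congr rfl fun m _ => ?_
    unfold gi
    rw [← ha]
    split_ifs
    · rfl
    · simp
  rw [e1, par k1 hk1 a φ _ (Icc (-(x : ℤ)) x) (fun d hd => bnd hf ha1 ha2 hk2 (hφ0 d hd))
    (fun d hd => bnd2 ha1 ha2 k1 (bnd hf ha1 ha2 hk2 (hφ0 d hd)))]
  rw [← par k2 hk2 a φ (Icc (1 : ℤ) x) (Icc (-(x : ℤ)) x)
    (fun d hd => bnd hf ha1 ha2 hk2 (hφ0 d hd)) (fun d hd => by
      rw [mem_Icc]; exact hf _ (hφ0 d hd))]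
  refine sum_congr rfl fun n hn => ?_
  rw [mem_filter] at hn
  rw [hφ]
  simp only
  rw [Int.ediv_mul_cancel hn.2]
  congr 3
  ring

/-- the off-diagonal terms -/
lemma offd (f : ℤ → ℂ) (x : ℕ) (hf : ∀ n : ℤ, f n ≠ 0 → 1 ≤ n ∧ n ≤ x) (c : ℤ)
    (k1 k2 i j : ℕ) (hk1 : 1 ≤ k1) (hk2 : 1 ≤ k2) (ha1 : 1 ≤ c + (i : ℤ) ^ 2)
    (ha2 : c + (i : ℤ) ^ 2 ≤ x) (hij : j < i) :
    ∑ m ∈ Icc (-((x + x * k1 : ℕ) : ℤ)) ((x + x * k1 : ℕ) : ℤ),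
        (starRingEnd ℂ) (gi f c k1 k2 i m) * gi f c k1 k2 j m =
      if k1 ∣ i ^ 2 - j ^ 2 then ZZ f x c k1 k2 ((i - j : ℕ) : ℤ) ((i + j : ℕ) : ℤ) else 0 := by
  set a : ℤ := c + (i : ℤ) ^ 2 with ha
  set b : ℤ := c + (j : ℤ) ^ 2 with hb
  have hk10 : (k1 : ℤ) ≠ 0 := by
    have : (1 : ℤ) ≤ k1 := by exact_mod_cast hk1
    omega
  have hsq : j ^ 2 ≤ i ^ 2 := Nat.pow_le_pow_left hij.le 2
  have hcast : ((i ^ 2 - j ^ 2 : ℕ) : ℤ) = a - b := by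
    rw [Nat.cast_sub hsq]; push_cast; rw [ha, hb]; ring
  split_ifs with hdvd
  · have hdz : (k1 : ℤ) ∣ a - b := by
      rw [← hcast]; exact_mod_cast hdvd
    obtain ⟨w, hw⟩ := hdz
    set φ : ℤ → ℂ := fun d => (starRingEnd ℂ) (f (a + d * k2)) *
      f (a + d * k2 - w * ((k1 : ℤ) - k2)) with hφ
    have hφ0 : ∀ d, φ d ≠ 0 → f (a + d * k2) ≠ 0 := by
      intro d hd h
      apply hd
      rw [hφ]
      simp only [h]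
      simp
    have e1 : ∑ m ∈ Icc (-((x + x * k1 : ℕ) : ℤ)) ((x + x * k1 : ℕ) : ℤ),
        (starRingEnd ℂ) (gi f c k1 k2 i m) * gi f c k1 k2 j m =
        ∑ m ∈ (Icc (-((x + x * k1 : ℕ) : ℤ)) ((x + x * k1 : ℕ) : ℤ)).filter
          (fun m => (k1 : ℤ) ∣ m - a), φ ((m - a) / k1) := by
      rw [sum_filter]
      refine sum_congr rfl fun m _ => ?_
      unfold gi
      rw [← ha, ← hb]
      by_cases hm : (k1 : ℤ) ∣ m - a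
      · have hm' : (k1 : ℤ) ∣ m - b := by
          have : m - b = (m - a) + (a - b) := by ring
          rw [this, hw]
          exact dvd_add hm (dvd_mul_right _ _)
        rw [if_pos hm, if_pos hm', if_pos hm]
        rw [hφ]
        simp only
        congr 2
        obtain ⟨t, ht⟩ := hm
        have e2 : m - b = k1 * (t + w) := by
          have : m - b = (m - a) + (a - b) := by ring
          rw [this, hw, ht]; ring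
        rw [e2, ht, Int.mul_ediv_cancel_left _ hk10, Int.mul_ediv_cancel_left _ hk10]
        have : b = a - k1 * w := by rw [← hw]; ring
        rw [this]; ring
      · rw [if_neg hm, if_neg hm]
        simp
    rw [e1, par k1 hk1 a φ _ (Icc (-(x : ℤ)) x) (fun d hd => bnd hf ha1 ha2 hk2 (hφ0 d hd))
      (fun d hd => bnd2 ha1 ha2 k1 (bnd hf ha1 ha2 hk2 (hφ0 d hd)))]
    rw [← par k2 hk2 a φ (Icc (1 : ℤ) x) (Icc (-(x : ℤ)) x)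
      (fun d hd => bnd hf ha1 ha2 hk2 (hφ0 d hd)) (fun d hd => by
        rw [mem_Icc]; exact hf _ (hφ0 d hd))]
    unfold ZZ
    have huv : (((i - j : ℕ) : ℤ) + ((i + j : ℕ) : ℤ)) / 2 = i := by
      have : ((i - j : ℕ) : ℤ) + ((i + j : ℕ) : ℤ) = 2 * i := by
        rw [Nat.cast_sub hij.le]; push_cast; ring
      rw [this]; simp
    have huv2 : ((i - j : ℕ) : ℤ) * ((i + j : ℕ) : ℤ) / k1 = w := by
      have : ((i - j : ℕ) : ℤ) * ((i + j : ℕ) : ℤ) = k1 * w := by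
        rw [← hw, ha, hb, Nat.cast_sub hij.le]; push_cast; ring
      rw [this, Int.mul_ediv_cancel_left _ hk10]
    rw [huv, huv2]
    have hset : (Icc (1 : ℤ) x).filter (fun n => (k2 : ℤ) ∣ n - a) =
        (Icc (1 : ℤ) x).filter (fun n => (k2 : ℤ) ∣ n - c - (i : ℤ) ^ 2) := by
      refine filter_congr fun n _ => ?_
      rw [ha, show n - (c + (i : ℤ) ^ 2) = n - c - (i : ℤ) ^ 2 by ring]
    rw [hset]
    refine sum_congr rfl fun n hn => ?_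
    rw [← hset, mem_filter] at hn
    rw [hφ]
    simp only
    rw [Int.ediv_mul_cancel hn.2]
    rw [show a + (n - a) = n by ring]
  · apply sum_eq_zero
    intro m _
    unfold gi
    rw [← ha, ← hb]
    by_cases hm : (k1 : ℤ) ∣ m - a
    · by_cases hm' : (k1 : ℤ) ∣ m - b
      · exfalso
        apply hdvd
        have : (k1 : ℤ) ∣ a - b := by
          have h := dvd_sub hm' hm
          rwa [show m - b - (m - a) = a - b by ring] at h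
        rw [← hcast] at this
        exact_mod_cast this
      · rw [if_neg hm', mul_zero]
    · rw [if_neg hm, map_zero, zero_mul]

/-- diagonal quantity -/
noncomputable def Dg (f : ℤ → ℂ) (x : ℕ) (c : ℤ) (k I0 I1 : ℕ) : ℝ :=
  ∑ i ∈ Ioc I0 I1, ∑ n ∈ (Icc (1 : ℤ) x).filter (fun n => (k : ℤ) ∣ n - (c + (i : ℤ) ^ 2)),
    ‖f n‖ ^ 2

lemma Dg_nonneg (f : ℤ → ℂ) (x : ℕ) (c : ℤ) (k I0 I1 : ℕ) : 0 ≤ Dg f x c k I0 I1 :=
  sum_nonneg fun _ _ => sum_nonneg fun _ _ => by positivity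

/-- one pair of quotients -/
lemma Tk (f : ℤ → ℂ) (x : ℕ) (hf : ∀ n : ℤ, f n ≠ 0 → 1 ≤ n ∧ n ≤ x) (c : ℤ)
    (k1 k2 I0 I1 : ℕ) (hk1 : 1 ≤ k1) (hk2 : 1 ≤ k2)
    (ha : ∀ i ∈ Ioc I0 I1, 1 ≤ c + (i : ℤ) ^ 2 ∧ c + (i : ℤ) ^ 2 ≤ x) :
    ‖∑ i ∈ Ioc I0 I1, ∑ d ∈ Icc (-(x : ℤ)) x,
      f (c + (i : ℤ) ^ 2 + d * k1) * (starRingEnd ℂ) (f (c + (i : ℤ) ^ 2 + d * k2))‖ ^ 2 ≤
      mom f x 2 * (Dg f x c k2 I0 I1 + 2 * ‖Off f x c k1 k2 I0 I1‖) := by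
  classical
  -- sum over `m`
  have e1 : ∀ i ∈ Ioc I0 I1, ∑ d ∈ Icc (-(x : ℤ)) x,
      f (c + (i : ℤ) ^ 2 + d * k1) * (starRingEnd ℂ) (f (c + (i : ℤ) ^ 2 + d * k2)) =
      ∑ m ∈ Icc (1 : ℤ) x, f m * (starRingEnd ℂ) (gi f c k1 k2 i m) := by
    intro i hi
    obtain ⟨ha1, ha2⟩ := ha i hi
    set a : ℤ := c + (i : ℤ) ^ 2 with haa
    set φ : ℤ → ℂ := fun d => f (a + d * k1) * (starRingEnd ℂ) (f (a + d * k2)) with hφ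
    have hφ0 : ∀ d, φ d ≠ 0 → f (a + d * k1) ≠ 0 := by
      intro d hd h
      apply hd
      rw [hφ]
      simp only [h]
      simp
    rw [← par k1 hk1 a φ (Icc (1 : ℤ) x) (Icc (-(x : ℤ)) x)
      (fun d hd => bnd hf ha1 ha2 hk1 (hφ0 d hd)) (fun d hd => by
        rw [mem_Icc]; exact hf _ (hφ0 d hd))]
    rw [sum_filter]
    refine sum_congr rfl fun m _ => ?_
    unfold gi
    rw [← haa]
    by_cases hm : (k1 : ℤ) ∣ m - a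
    · rw [if_pos hm, if_pos hm, hφ]
      simp only
      rw [Int.ediv_mul_cancel hm, show a + (m - a) = m by ring]
    · rw [if_neg hm, if_neg hm]
      simp
  rw [sum_congr rfl e1, sum_comm]
  have e2 : ∀ m ∈ Icc (1 : ℤ) x, ∑ i ∈ Ioc I0 I1, f m * (starRingEnd ℂ) (gi f c k1 k2 i m) =
      f m * (starRingEnd ℂ) (∑ i ∈ Ioc I0 I1, gi f c k1 k2 i m) := by
    intro m _
    rw [map_sum, mul_sum]
  rw [sum_congr rfl e2]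
  -- Cauchy
  have h1 : ‖∑ m ∈ Icc (1 : ℤ) x, f m * (starRingEnd ℂ) (∑ i ∈ Ioc I0 I1, gi f c k1 k2 i m)‖ ^ 2 ≤
      (∑ m ∈ Icc (1 : ℤ) x, ‖f m‖ ^ 2) *
        ∑ m ∈ Icc (1 : ℤ) x, ‖∑ i ∈ Ioc I0 I1, gi f c k1 k2 i m‖ ^ 2 := by
    calc ‖∑ m ∈ Icc (1 : ℤ) x, f m * (starRingEnd ℂ) (∑ i ∈ Ioc I0 I1, gi f c k1 k2 i m)‖ ^ 2
        ≤ (∑ m ∈ Icc (1 : ℤ) x, ‖f m‖ * ‖∑ i ∈ Ioc I0 I1, gi f c k1 k2 i m‖) ^ 2 := by
          refine pow_le_pow_left₀ (norm_nonneg _) ?_ 2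
          refine (norm_sum_le _ _).trans (le_of_eq ?_)
          refine sum_congr rfl fun m _ => ?_
          rw [norm_mul, RCLike.norm_conj]
      _ ≤ _ := sum_mul_sq_le_sq_mul_sq _ _ _
  have h2 : ∑ m ∈ Icc (1 : ℤ) x, ‖∑ i ∈ Ioc I0 I1, gi f c k1 k2 i m‖ ^ 2 ≤
      ∑ m ∈ Icc (-((x + x * k1 : ℕ) : ℤ)) ((x + x * k1 : ℕ) : ℤ),
        ‖∑ i ∈ Ioc I0 I1, gi f c k1 k2 i m‖ ^ 2 := by
    refine sum_le_sum_of_subset_of_nonneg ?_ (fun _ _ _ => by positivity)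
    refine Icc_subset_Icc ?_ ?_
    · have : (0 : ℤ) ≤ ((x + x * k1 : ℕ) : ℤ) := by positivity
      omega
    · push_cast
      have : (0 : ℤ) ≤ (x : ℤ) * k1 := by positivity
      omega
  have h3 := sig (Ioc I0 I1) (Icc (-((x + x * k1 : ℕ) : ℤ)) ((x + x * k1 : ℕ) : ℤ))
    (fun i m => gi f c k1 k2 i m)
  have h4 : ∑ i ∈ Ioc I0 I1, ∑ m ∈ Icc (-((x + x * k1 : ℕ) : ℤ)) ((x + x * k1 : ℕ) : ℤ),
      ‖gi f c k1 k2 i m‖ ^ 2 = Dg f x c k2 I0 I1 := by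
    unfold Dg
    refine sum_congr rfl fun i hi => ?_
    exact diag f x hf c k1 k2 i hk1 hk2 (ha i hi).1 (ha i hi).2
  have h5 : ∑ i ∈ Ioc I0 I1, ∑ j ∈ (Ioc I0 I1).filter (fun j => j < i),
      ∑ m ∈ Icc (-((x + x * k1 : ℕ) : ℤ)) ((x + x * k1 : ℕ) : ℤ),
        (starRingEnd ℂ) (gi f c k1 k2 i m) * gi f c k1 k2 j m = Off f x c k1 k2 I0 I1 := by
    unfold Off
    refine sum_congr rfl fun i hi => ?_
    rw [← filter_filter, sum_filter (fun j => k1 ∣ i ^ 2 - j ^ 2)]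
    refine sum_congr rfl fun j hj => ?_
    rw [mem_filter] at hj
    exact offd f x hf c k1 k2 i j hk1 hk2 (ha i hi).1 (ha i hi).2 hj.2
  rw [h4, h5] at h3
  calc _ ≤ _ := h1
    _ ≤ mom f x 2 * (Dg f x c k2 I0 I1 + 2 * ‖Off f x c k1 k2 I0 I1‖) := by
      refine mul_le_mul (le_of_eq rfl) (h2.trans h3) (sum_nonneg fun _ _ => by positivity) ?_
      exact sum_nonneg fun _ _ => by positivity

/-- the diagonal quotients -/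
lemma Tkk (f : ℤ → ℂ) (x : ℕ) (hf : ∀ n : ℤ, f n ≠ 0 → 1 ≤ n ∧ n ≤ x) (c : ℤ)
    (k I0 I1 : ℕ) (hk : 1 ≤ k)
    (ha : ∀ i ∈ Ioc I0 I1, 1 ≤ c + (i : ℤ) ^ 2 ∧ c + (i : ℤ) ^ 2 ≤ x) :
    ‖∑ i ∈ Ioc I0 I1, ∑ d ∈ Icc (-(x : ℤ)) x,
      f (c + (i : ℤ) ^ 2 + d * k) * (starRingEnd ℂ) (f (c + (i : ℤ) ^ 2 + d * k))‖ ≤
      Dg f x c k I0 I1 := by
  refine (norm_sum_le _ _).trans ?_
  unfold Dg
  refine sum_le_sum fun i hi => ?_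
  obtain ⟨ha1, ha2⟩ := ha i hi
  set a : ℤ := c + (i : ℤ) ^ 2 with haa
  set φ : ℤ → ℝ := fun d => ‖f (a + d * k)‖ ^ 2 with hφ
  have hφ0 : ∀ d, φ d ≠ 0 → f (a + d * k) ≠ 0 := by
    intro d hd h
    apply hd
    rw [hφ]
    simp only [h]
    simp
  refine (norm_sum_le _ _).trans ?_
  have e1 : ∑ d ∈ Icc (-(x : ℤ)) x, ‖f (a + d * k) * (starRingEnd ℂ) (f (a + d * k))‖ =
      ∑ d ∈ Icc (-(x : ℤ)) x, φ d := by
    refine sum_congr rfl fun d _ => ?_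
    rw [norm_mul, RCLike.norm_conj, hφ]
    simp only
    ring
  rw [e1, ← par k hk a φ (Icc (1 : ℤ) x) (Icc (-(x : ℤ)) x)
    (fun d hd => bnd hf ha1 ha2 hk (hφ0 d hd)) (fun d hd => by
      rw [mem_Icc]; exact hf _ (hφ0 d hd))]
  refine le_of_eq (sum_congr rfl fun n hn => ?_)
  rw [mem_filter] at hn
  rw [hφ]
  simp only
  rw [Int.ediv_mul_cancel hn.2, show a + (n - a) = n by ring]

/-- the dispersion inequality -/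
lemma disp (f : ℤ → ℂ) (x : ℕ) (hf : ∀ n : ℤ, f n ≠ 0 → 1 ≤ n ∧ n ≤ x) (c σ : ℤ)
    (K1 K D I0 I1 : ℕ) (hσ : σ = 1 ∨ σ = -1)
    (ha : ∀ i ∈ Ioc I0 I1, 1 ≤ c + (i : ℤ) ^ 2 ∧ c + (i : ℤ) ^ 2 ≤ x) :
    ∑ i ∈ Ioc I0 I1, ∑ d ∈ Ioc D (2 * D),
      ‖∑ k ∈ Ioc K1 K, f (c + (i : ℤ) ^ 2 + σ * d * k)‖ ^ 2 ≤
    ∑ k ∈ Ioc K1 K, Dg f x c k I0 I1 + √(mom f x 2) * (K *
      √(K * ∑ k ∈ Ioc K1 K, Dg f x c k I0 I1 +
        2 * ∑ k1 ∈ Ioc K1 K, ∑ k2 ∈ (Ioc K1 K).filter (fun k2 => k2 ≠ k1),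
          ‖Off f x c k1 k2 I0 I1‖)) := by
  classical
  have hpos : ∀ k ∈ Ioc K1 K, 1 ≤ k := by
    intro k hk; rw [mem_Ioc] at hk; omega
  have h1 : ∑ i ∈ Ioc I0 I1, ∑ d ∈ Ioc D (2 * D),
      ‖∑ k ∈ Ioc K1 K, f (c + (i : ℤ) ^ 2 + σ * d * k)‖ ^ 2 ≤
      ∑ i ∈ Ioc I0 I1, ∑ d ∈ Icc (-(x : ℤ)) x,
        ‖∑ k ∈ Ioc K1 K, f (c + (i : ℤ) ^ 2 + d * k)‖ ^ 2 :=
    sum_le_sum fun i hi => step1 f x hf _ (ha i hi).1 (ha i hi).2 _ hpos D σ hσ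
  have h2 := step2 (Ioc I0 I1) (Icc (-(x : ℤ)) x) (Ioc K1 K)
    (fun i d k => f (c + (i : ℤ) ^ 2 + d * k))
  set T : ℕ → ℕ → ℂ := fun k1 k2 => ∑ i ∈ Ioc I0 I1, ∑ d ∈ Icc (-(x : ℤ)) x,
    f (c + (i : ℤ) ^ 2 + d * k1) * (starRingEnd ℂ) (f (c + (i : ℤ) ^ 2 + d * k2)) with hT
  have hm0 : 0 ≤ mom f x 2 := sum_nonneg fun _ _ => by positivity
  have h3 : ∑ k1 ∈ Ioc K1 K, ∑ k2 ∈ Ioc K1 K, ‖T k1 k2‖ =
      ∑ k1 ∈ Ioc K1 K, ‖T k1 k1‖ +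
        ∑ k1 ∈ Ioc K1 K, ∑ k2 ∈ (Ioc K1 K).filter (fun k2 => k2 ≠ k1), ‖T k1 k2‖ := by
    rw [← sum_add_distrib]
    refine sum_congr rfl fun k1 hk1 => ?_
    rw [← add_sum_erase (Ioc K1 K) (fun k2 => ‖T k1 k2‖) hk1]
    congr 1
    refine sum_congr ?_ fun _ _ => rfl
    ext k2
    simp only [mem_filter, mem_erase]
    tauto
  have h4 : ∑ k1 ∈ Ioc K1 K, ‖T k1 k1‖ ≤ ∑ k ∈ Ioc K1 K, Dg f x c k I0 I1 :=
    sum_le_sum fun k hk => Tkk f x hf c k I0 I1 (hpos k hk) ha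
  set B : ℕ → ℕ → ℝ := fun k1 k2 => Dg f x c k2 I0 I1 + 2 * ‖Off f x c k1 k2 I0 I1‖ with hB
  have hB0 : ∀ k1 k2, 0 ≤ B k1 k2 := by
    intro k1 k2
    rw [hB]
    have := Dg_nonneg f x c k2 I0 I1
    positivity
  have h5 : ∑ k1 ∈ Ioc K1 K, ∑ k2 ∈ (Ioc K1 K).filter (fun k2 => k2 ≠ k1), ‖T k1 k2‖ ≤
      √(mom f x 2) * ∑ k1 ∈ Ioc K1 K, ∑ k2 ∈ (Ioc K1 K).filter (fun k2 => k2 ≠ k1),
        √(B k1 k2) := by
    rw [mul_sum]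
    refine sum_le_sum fun k1 hk1 => ?_
    rw [mul_sum]
    refine sum_le_sum fun k2 hk2 => ?_
    rw [mem_filter] at hk2
    rw [← Real.sqrt_mul hm0]
    apply Real.le_sqrt_of_sq_le
    exact Tk f x hf c k1 k2 I0 I1 (hpos k1 hk1) (hpos k2 hk2.1) ha
  -- Cauchy over the pairs
  have h6 : ∑ k1 ∈ Ioc K1 K, ∑ k2 ∈ (Ioc K1 K).filter (fun k2 => k2 ≠ k1), √(B k1 k2) ≤
      K * √(∑ k1 ∈ Ioc K1 K, ∑ k2 ∈ (Ioc K1 K).filter (fun k2 => k2 ≠ k1), B k1 k2) := by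
    rw [sum_sigma', sum_sigma']
    set P := (Ioc K1 K).sigma (fun k1 => (Ioc K1 K).filter (fun k2 => k2 ≠ k1)) with hP
    have hcard : (P.card : ℝ) ≤ (K : ℝ) ^ 2 := by
      have : P.card ≤ K ^ 2 := by
        rw [hP, card_sigma]
        calc ∑ k1 ∈ Ioc K1 K, ((Ioc K1 K).filter (fun k2 => k2 ≠ k1)).card
            ≤ ∑ k1 ∈ Ioc K1 K, K := by
              refine sum_le_sum fun k1 _ => ?_
              refine (card_filter_le _ _).trans ?_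
              rw [Nat.card_Ioc]; omega
          _ ≤ K * K := by
              rw [sum_const, smul_eq_mul, Nat.card_Ioc]
              exact Nat.mul_le_mul_right _ (by omega)
          _ = K ^ 2 := by ring
      exact_mod_cast this
    have h7 : (∑ z ∈ P, √(B z.1 z.2)) ^ 2 ≤ (K : ℝ) ^ 2 * ∑ z ∈ P, B z.1 z.2 := by
      have h8 := sum_mul_sq_le_sq_mul_sq P (fun _ => (1 : ℝ)) (fun z => √(B z.1 z.2))
      simp only [one_mul, one_pow, sum_const, nsmul_eq_mul, mul_one] at h8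
      refine h8.trans ?_
      have h9 : ∑ z ∈ P, √(B z.1 z.2) ^ 2 = ∑ z ∈ P, B z.1 z.2 :=
        sum_congr rfl fun z _ => Real.sq_sqrt (hB0 _ _)
      rw [h9]
      refine mul_le_mul_of_nonneg_right hcard (sum_nonneg fun z _ => hB0 _ _)
    have h10 : 0 ≤ ∑ z ∈ P, √(B z.1 z.2) := sum_nonneg fun _ _ => Real.sqrt_nonneg _
    have hK0 : (0 : ℝ) ≤ K := Nat.cast_nonneg _
    calc ∑ z ∈ P, √(B z.1 z.2) = √((∑ z ∈ P, √(B z.1 z.2)) ^ 2) := (Real.sqrt_sq h10).symm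
      _ ≤ √((K : ℝ) ^ 2 * ∑ z ∈ P, B z.1 z.2) := Real.sqrt_le_sqrt h7
      _ = K * √(∑ z ∈ P, B z.1 z.2) := by
          rw [Real.sqrt_mul (by positivity), Real.sqrt_sq hK0]
  have h7 : ∑ k1 ∈ Ioc K1 K, ∑ k2 ∈ (Ioc K1 K).filter (fun k2 => k2 ≠ k1), B k1 k2 ≤
      K * ∑ k ∈ Ioc K1 K, Dg f x c k I0 I1 +
        2 * ∑ k1 ∈ Ioc K1 K, ∑ k2 ∈ (Ioc K1 K).filter (fun k2 => k2 ≠ k1),
          ‖Off f x c k1 k2 I0 I1‖ := by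
    have e1 : ∑ k1 ∈ Ioc K1 K, ∑ k2 ∈ (Ioc K1 K).filter (fun k2 => k2 ≠ k1), B k1 k2 =
        ∑ k1 ∈ Ioc K1 K, ∑ k2 ∈ (Ioc K1 K).filter (fun k2 => k2 ≠ k1), Dg f x c k2 I0 I1 +
        2 * ∑ k1 ∈ Ioc K1 K, ∑ k2 ∈ (Ioc K1 K).filter (fun k2 => k2 ≠ k1),
          ‖Off f x c k1 k2 I0 I1‖ := by
      rw [mul_sum, ← sum_add_distrib]
      refine sum_congr rfl fun k1 _ => ?_
      rw [mul_sum, ← sum_add_distrib]
    rw [e1]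
    refine add_le_add ?_ le_rfl
    calc ∑ k1 ∈ Ioc K1 K, ∑ k2 ∈ (Ioc K1 K).filter (fun k2 => k2 ≠ k1), Dg f x c k2 I0 I1
        ≤ ∑ k1 ∈ Ioc K1 K, ∑ k2 ∈ Ioc K1 K, Dg f x c k2 I0 I1 := by
          refine sum_le_sum fun k1 _ => ?_
          exact sum_le_sum_of_subset_of_nonneg (filter_subset _ _)
            (fun _ _ _ => Dg_nonneg _ _ _ _ _ _)
      _ = ((Ioc K1 K).card : ℝ) * ∑ k2 ∈ Ioc K1 K, Dg f x c k2 I0 I1 := by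
          rw [sum_const, nsmul_eq_mul]
      _ ≤ K * ∑ k2 ∈ Ioc K1 K, Dg f x c k2 I0 I1 := by
          refine mul_le_mul_of_nonneg_right ?_ (sum_nonneg fun _ _ => Dg_nonneg _ _ _ _ _ _)
          rw [Nat.card_Ioc]
          exact_mod_cast (by omega : K - K1 ≤ K)
  have hK0 : (0 : ℝ) ≤ K := Nat.cast_nonneg _
  calc _ ≤ _ := h1
    _ ≤ ∑ k1 ∈ Ioc K1 K, ∑ k2 ∈ Ioc K1 K, ‖T k1 k2‖ := h2
    _ = _ := h3
    _ ≤ _ := by
      refine add_le_add h4 (h5.trans ?_)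
      refine mul_le_mul_of_nonneg_left (h6.trans ?_) (Real.sqrt_nonneg _)
      exact mul_le_mul_of_nonneg_left (Real.sqrt_le_sqrt h7) hK0

end Pool.Agent.Y257.SQ
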