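import Pool.Agent.Y257.SQ.Disp

/-!
The dispersion step: `S_sm` from `S_off`, `S_mom`, `S_tb`.
-/

namespace Pool.Agent.Y257.SQ

open Finset Filter
open Pool.Agent.H442R2.EHI
open Pool.Agent.Y856.Sq

lemma ev_log_pow (k : ℕ) (s : ℝ) (hs : 0 < s) : ∀ᶠ x : ℕ in atTop,
    Real.log x ^ k ≤ (x : ℝ) ^ s := by
  have h := (isLittleO_log_rpow_rpow_atTop (k : ℝ) hs).bound (show (0:ℝ) < 1 by norm_num)
  have h2 := tendsto_natCast_atTop_atTop (R := ℝ) |>.eventually h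
  filter_upwards [h2, eventually_ge_atTop 1] with x hx hx1
  have hx1' : (1:ℝ) ≤ x := by exact_mod_cast hx1
  have hl : 0 ≤ Real.log x := Real.log_nonneg hx1'
  rw [Real.rpow_natCast, Real.norm_of_nonneg (by positivity), Real.norm_of_nonneg (by positivity),
    one_mul] at hx
  exact hx

lemma ev_log_ge (M : ℝ) : ∀ᶠ x : ℕ in atTop, M ≤ Real.log x :=
  (Real.tendsto_log_atTop.comp tendsto_natCast_atTop_atTop).eventually_ge_atTop M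

lemma ffz_supp {x Q : ℕ} (m : ℤ) (h : ffz x Q m ≠ 0) : 1 ≤ m ∧ m ≤ x := by
  by_contra hcon
  apply h
  unfold ffz
  split_ifs with h1
  · apply ff_zero_of_gt
    push Not at hcon
    have := hcon h1
    omega
  · rfl

theorem t (ho : S_off) (hm : S_mom) (ht : S_tb) : S_sm := by
  intro ε U E2 hε
  obtain ⟨c1, hc1⟩ := hm 2
  obtain ⟨c2, hc2⟩ := ht 2
  set C := c1 + c2 with hC
  set U' := 2 * U + C + 6 with hU'
  obtain ⟨E0, hE0⟩ := ho ε U' E2 hε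
  refine ⟨E0, fun E1 hE1 => ?_⟩
  obtain ⟨x1, hx1⟩ := hE0 E1 hE1
  obtain ⟨x2, hx2⟩ := hc1 E1
  obtain ⟨x3, hx3⟩ := hc2 E1
  have hev : ∀ᶠ x : ℕ in atTop, x1 ≤ x ∧ x2 ≤ x ∧ x3 ≤ x ∧ 1 ≤ x ∧ 2 ≤ Real.log x ∧
      Real.log x ^ (C + U' + 1) ≤ (x : ℝ) ^ (1 / 5 : ℝ) ∧
      Real.log x ^ (C + U + 2) ≤ (x : ℝ) ^ ε := by
    filter_upwards [eventually_ge_atTop x1, eventually_ge_atTop x2, eventually_ge_atTop x3,
      eventually_ge_atTop 1, ev_log_ge 2, ev_log_pow (C + U' + 1) (1 / 5) (by norm_num),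
      ev_log_pow (C + U + 2) ε hε] with x h1 h2 h3 h4 h5 h6 h7
    exact ⟨h1, h2, h3, h4, h5, h6, h7⟩
  obtain ⟨x0, hx0⟩ := eventually_atTop.mp hev
  refine ⟨x0, fun x hx Q K1 K D I0 I1 c σ hQ1 hQ2 hKε hK310 hK1 hKK hI hI1 hc ha hσ => ?_⟩
  obtain ⟨g1, g2, g3, g4, hL2, gA, gB⟩ := hx0 x hx
  set L := Real.log x with hL
  have hL0 : 0 < L := by linarith
  have hL1 : 1 ≤ L := by linarith
  have hxr : (1:ℝ) ≤ x := by exact_mod_cast g4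
  have hxp : (0:ℝ) < x := by linarith
  have hK0 : (0:ℝ) ≤ K := Nat.cast_nonneg _
  have hoff := hx1 x g1 Q K1 K I0 I1 c hQ1 hQ2 hKε hK310 hK1 hKK hI hI1 hc
  have hmom : mom (ffz x Q) x 2 ≤ x * L ^ C := by
    refine (hx2 x g2 Q hQ1).trans ?_
    rw [← hL]
    have h9 : L ^ c1 ≤ L ^ C := pow_le_pow_right₀ hL1 (by omega)
    exact mul_le_mul_of_nonneg_left h9 hxp.le
  have hmom0 : 0 ≤ mom (ffz x Q) x 2 := sum_nonneg fun _ _ => by positivity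
  have hK2 : K ^ 2 ≤ x := by
    have h1 : (K : ℝ) ^ 2 ≤ x := by
      calc (K : ℝ) ^ 2 ≤ ((x : ℝ) ^ (3 / 10 : ℝ)) ^ 2 := by gcongr
        _ = (x : ℝ) ^ (6 / 10 : ℝ) := by
          rw [← Real.rpow_natCast, ← Real.rpow_mul hxp.le]; norm_num
        _ ≤ (x : ℝ) ^ (1 : ℝ) := Real.rpow_le_rpow_of_exponent_le hxr (by norm_num)
        _ = x := Real.rpow_one _
    exact_mod_cast h1
  have hJ : (((Ioc I0 I1).card : ℕ) : ℝ) ≤ 2 * (x : ℝ) ^ (1 / 2 : ℝ) := by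
    rw [Nat.card_Ioc]
    have h1 : ((I1 - I0 : ℕ) : ℝ) ≤ I1 := by exact_mod_cast Nat.sub_le _ _
    refine h1.trans ?_
    have h2 : (I1 : ℝ) ^ 2 ≤ 2 * x := by exact_mod_cast hI1
    have h3 : ((x : ℝ) ^ (1 / 2 : ℝ)) ^ 2 = x := by
      rw [← Real.rpow_natCast, ← Real.rpow_mul hxp.le]; norm_num
    have h4 : 0 ≤ (x : ℝ) ^ (1 / 2 : ℝ) := by positivity
    apply le_of_sq_le_sq _ (by positivity)
    rw [mul_pow, h3]
    linarith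
  have hDsum : ∑ k ∈ Ioc K1 K, Dg (ffz x Q) x c k I0 I1 ≤ 2 * (x : ℝ) ^ (3 / 2 : ℝ) * L ^ C := by
    unfold Dg
    rw [sum_comm]
    have h1 : ∀ i ∈ Ioc I0 I1, ∑ k ∈ Ioc K1 K,
        ∑ n ∈ (Icc (1 : ℤ) x).filter (fun n => (k : ℤ) ∣ n - (c + (i : ℤ) ^ 2)), ‖ffz x Q n‖ ^ 2 ≤
        x * L ^ C := by
      intro i hi
      obtain ⟨ha1, ha2⟩ := ha i hi
      have h2 := hx3 x g3 Q K hQ1 hK2 (c + (i : ℤ) ^ 2) (by
        rw [abs_of_nonneg (by omega)]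
        omega)
      calc ∑ k ∈ Ioc K1 K,
          ∑ n ∈ (Icc (1 : ℤ) x).filter (fun n => (k : ℤ) ∣ n - (c + (i : ℤ) ^ 2)), ‖ffz x Q n‖ ^ 2
          ≤ ∑ k ∈ Icc 1 K,
          ∑ n ∈ (Icc (1 : ℤ) x).filter (fun n => (k : ℤ) ∣ n - (c + (i : ℤ) ^ 2)),
            ‖ffz x Q n‖ ^ 2 := by
            refine sum_le_sum_of_subset_of_nonneg ?_ (fun _ _ _ => sum_nonneg fun _ _ => by
              positivity)
            intro k hk
            rw [mem_Ioc] at hk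
            rw [mem_Icc]
            omega
        _ ≤ x * L ^ c2 := h2
        _ ≤ x * L ^ C :=
            mul_le_mul_of_nonneg_left (pow_le_pow_right₀ hL1 (by omega)) hxp.le
    calc _ ≤ ∑ i ∈ Ioc I0 I1, (x : ℝ) * L ^ C := sum_le_sum h1
      _ = ((Ioc I0 I1).card : ℝ) * (x * L ^ C) := by rw [sum_const, nsmul_eq_mul]
      _ ≤ 2 * (x : ℝ) ^ (1 / 2 : ℝ) * (x * L ^ C) := by gcongr
      _ = 2 * (x : ℝ) ^ (3 / 2 : ℝ) * L ^ C := by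
          have : (x : ℝ) ^ (3 / 2 : ℝ) = (x : ℝ) ^ (1 / 2 : ℝ) * x := by
            rw [show (3 / 2 : ℝ) = 1 / 2 + 1 by norm_num, Real.rpow_add hxp, Real.rpow_one]
          rw [this]; ring
  have hDsum0 : 0 ≤ ∑ k ∈ Ioc K1 K, Dg (ffz x Q) x c k I0 I1 :=
    sum_nonneg fun _ _ => Dg_nonneg _ _ _ _ _ _
  have hmain := disp (ffz x Q) x (fun n hn => ffz_supp n hn) c σ K1 K D I0 I1 hσ ha
  refine hmain.trans ?_
  have hx32 : 0 ≤ (x : ℝ) ^ (3 / 2 : ℝ) := by positivity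
  -- first term
  have t1 : ∑ k ∈ Ioc K1 K, Dg (ffz x Q) x c k I0 I1 ≤ (x : ℝ) ^ (3 / 2 : ℝ) * K / L ^ U / 2 := by
    refine hDsum.trans ?_
    rw [div_div, le_div_iff₀ (by positivity)]
    have h1 : 4 * L ^ (C + U) ≤ K := by
      calc 4 * L ^ (C + U) ≤ L ^ 2 * L ^ (C + U) := by
            gcongr
            nlinarith
        _ = L ^ (C + U + 2) := by ring
        _ ≤ _ := gB
        _ ≤ _ := hKε
    calc 2 * (x : ℝ) ^ (3 / 2 : ℝ) * L ^ C * (L ^ U * 2)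
        = (x : ℝ) ^ (3 / 2 : ℝ) * (4 * L ^ (C + U)) := by rw [pow_add]; ring
      _ ≤ (x : ℝ) ^ (3 / 2 : ℝ) * K := by gcongr
  -- second term
  have hin : K * ∑ k ∈ Ioc K1 K, Dg (ffz x Q) x c k I0 I1 +
        2 * ∑ k1 ∈ Ioc K1 K, ∑ k2 ∈ (Ioc K1 K).filter (fun k2 => k2 ≠ k1),
          ‖Off (ffz x Q) x c k1 k2 I0 I1‖ ≤ 3 * ((x : ℝ) ^ 2 / L ^ U') := by
    have h1 : K * ∑ k ∈ Ioc K1 K, Dg (ffz x Q) x c k I0 I1 ≤ (x : ℝ) ^ 2 / L ^ U' := by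
      rw [le_div_iff₀ (by positivity)]
      have h2 : 2 * L ^ (C + U') ≤ (x : ℝ) ^ (1 / 5 : ℝ) := by
        calc 2 * L ^ (C + U') ≤ L * L ^ (C + U') := by gcongr
          _ = L ^ (C + U' + 1) := by ring
          _ ≤ _ := gA
      calc K * (∑ k ∈ Ioc K1 K, Dg (ffz x Q) x c k I0 I1) * L ^ U'
          ≤ (x : ℝ) ^ (3 / 10 : ℝ) * (2 * (x : ℝ) ^ (3 / 2 : ℝ) * L ^ C) * L ^ U' := by gcongr
        _ = (x : ℝ) ^ (3 / 10 : ℝ) * (x : ℝ) ^ (3 / 2 : ℝ) * (2 * L ^ (C + U')) := by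
            rw [pow_add]; ring
        _ ≤ (x : ℝ) ^ (3 / 10 : ℝ) * (x : ℝ) ^ (3 / 2 : ℝ) * (x : ℝ) ^ (1 / 5 : ℝ) := by gcongr
        _ = (x : ℝ) ^ 2 := by
            rw [← Real.rpow_add hxp, ← Real.rpow_add hxp, ← Real.rpow_natCast]; norm_num
    have h3 : 2 * ∑ k1 ∈ Ioc K1 K, ∑ k2 ∈ (Ioc K1 K).filter (fun k2 => k2 ≠ k1),
          ‖Off (ffz x Q) x c k1 k2 I0 I1‖ ≤ 2 * ((x : ℝ) ^ 2 / L ^ U') := by
      exact mul_le_mul_of_nonneg_left hoff (by norm_num)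
    linarith
  have t2 : √(mom (ffz x Q) x 2) * (K *
      √(K * ∑ k ∈ Ioc K1 K, Dg (ffz x Q) x c k I0 I1 +
        2 * ∑ k1 ∈ Ioc K1 K, ∑ k2 ∈ (Ioc K1 K).filter (fun k2 => k2 ≠ k1),
          ‖Off (ffz x Q) x c k1 k2 I0 I1‖)) ≤ (x : ℝ) ^ (3 / 2 : ℝ) * K / L ^ U / 2 := by
    have h1 : √(mom (ffz x Q) x 2) * √(K * ∑ k ∈ Ioc K1 K, Dg (ffz x Q) x c k I0 I1 +
        2 * ∑ k1 ∈ Ioc K1 K, ∑ k2 ∈ (Ioc K1 K).filter (fun k2 => k2 ≠ k1),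
          ‖Off (ffz x Q) x c k1 k2 I0 I1‖) ≤ (x : ℝ) ^ (3 / 2 : ℝ) / L ^ U / 2 := by
      rw [← Real.sqrt_mul hmom0]
      apply Real.sqrt_le_iff.mpr
      refine ⟨by positivity, ?_⟩
      calc mom (ffz x Q) x 2 * (K * ∑ k ∈ Ioc K1 K, Dg (ffz x Q) x c k I0 I1 +
          2 * ∑ k1 ∈ Ioc K1 K, ∑ k2 ∈ (Ioc K1 K).filter (fun k2 => k2 ≠ k1),
            ‖Off (ffz x Q) x c k1 k2 I0 I1‖)
          ≤ (x * L ^ C) * (3 * ((x : ℝ) ^ 2 / L ^ U')) := by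
            refine mul_le_mul hmom hin ?_ (by positivity)
            have : 0 ≤ ∑ k1 ∈ Ioc K1 K, ∑ k2 ∈ (Ioc K1 K).filter (fun k2 => k2 ≠ k1),
              ‖Off (ffz x Q) x c k1 k2 I0 I1‖ :=
              sum_nonneg fun _ _ => sum_nonneg fun _ _ => norm_nonneg _
            positivity
        _ = 3 * (x : ℝ) ^ 3 * (L ^ C / L ^ U') := by ring
        _ = 3 * (x : ℝ) ^ 3 * (1 / L ^ (2 * U + 6)) := by
            have h8 : L ^ C / L ^ U' = 1 / L ^ (2 * U + 6) := by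
              rw [hU', show 2 * U + C + 6 = C + (2 * U + 6) by ring, pow_add L C (2 * U + 6)]
              rw [div_mul_eq_div_div, div_self (by positivity)]
            rw [h8]
        _ ≤ (x : ℝ) ^ 3 / (L ^ U) ^ 2 / 4 := by
            rw [show L ^ (2 * U + 6) = (L ^ U) ^ 2 * L ^ 6 by ring]
            have h6 : (64:ℝ) ≤ L ^ 6 := by
              calc (64:ℝ) = 2 ^ 6 := by norm_num
                _ ≤ L ^ 6 := by gcongr
            have h7 : 1 / ((L ^ U) ^ 2 * L ^ 6) ≤ 1 / ((L ^ U) ^ 2 * 64) := by gcongr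
            calc 3 * (x : ℝ) ^ 3 * (1 / ((L ^ U) ^ 2 * L ^ 6))
                ≤ 3 * (x : ℝ) ^ 3 * (1 / ((L ^ U) ^ 2 * 64)) := by gcongr
              _ = (x : ℝ) ^ 3 / (L ^ U) ^ 2 * (3 / 64) := by
                  rw [one_div, mul_inv, div_eq_mul_inv]; ring
              _ ≤ (x : ℝ) ^ 3 / (L ^ U) ^ 2 * (1 / 4) :=
                  mul_le_mul_of_nonneg_left (by norm_num) (by positivity)
              _ = _ := by ring
        _ = ((x : ℝ) ^ (3 / 2 : ℝ) / L ^ U / 2) ^ 2 := by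
            have : ((x : ℝ) ^ (3 / 2 : ℝ)) ^ 2 = (x : ℝ) ^ 3 := by
              rw [← Real.rpow_natCast, ← Real.rpow_mul hxp.le, ← Real.rpow_natCast]; norm_num
            rw [div_pow, div_pow, this]
            norm_num
    calc _ = K * (√(mom (ffz x Q) x 2) * √(K * ∑ k ∈ Ioc K1 K, Dg (ffz x Q) x c k I0 I1 +
        2 * ∑ k1 ∈ Ioc K1 K, ∑ k2 ∈ (Ioc K1 K).filter (fun k2 => k2 ≠ k1),
          ‖Off (ffz x Q) x c k1 k2 I0 I1‖)) := by ring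
      _ ≤ K * ((x : ℝ) ^ (3 / 2 : ℝ) / L ^ U / 2) := mul_le_mul_of_nonneg_left h1 hK0
      _ = _ := by ring
  calc _ ≤ (x : ℝ) ^ (3 / 2 : ℝ) * K / L ^ U / 2 + (x : ℝ) ^ (3 / 2 : ℝ) * K / L ^ U / 2 :=
        add_le_add t1 t2
    _ = (x : ℝ) ^ (3 / 2 : ℝ) * K / L ^ U := by ring

end Pool.Agent.Y257.SQ
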